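import Pool.Agent.Helper924_SB.Defs
import Pool.Agent.Helper361.SteinerPolar

open MeasureTheory Metric Set
open scoped ENNReal Pointwise

namespace Pool.Agent.Helper924_SB

/-- Brunn-Minkowski in multiplicative form -/
theorem bm (A B C : Set (Fin 2 → ℝ)) (hA : MeasurableSet A) (hB : MeasurableSet B) (hC : MeasurableSet C)
    (h : ∀ a ∈ A, ∀ b ∈ B, (fun i => (a i + b i) / 2) ∈ C) : volume A * volume B ≤ volume C ^ 2 :=
  Pool.Agent.Helper361.SteinerPolar.bm_pi hA hB hC h

end Pool.Agent.Helper924_SB
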