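import Mathlib

/-! Definitions for the planar pair bound (helper924, MP_8115c2_gt). -/

open MeasureTheory Metric Set
open scoped ENNReal Pointwise

namespace Pool.Agent.Helper924_SB

/-- support function of a planar set -/
noncomputable def hs (A : Set (Fin 2 → ℝ)) (u : Fin 2 → ℝ) : ℝ := sSup ((fun z => u 0 * z 0 + u 1 * z 1) '' A)

/-- the body `S` plus the segments `[-a j, a j]`, `j < m` -/
def Zn (a : ℕ → Fin 2 → ℝ) (S : Set (Fin 2 → ℝ)) : ℕ → Set (Fin 2 → ℝ)
  | 0 => S
  | m + 1 => Zn a S m + segment ℝ (-(a m)) (a m)

/-- the determinant -/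
def wd (a b : Fin 2 → ℝ) : ℝ := a 0 * b 1 - a 1 * b 0

/-- the map to `ℝ^(d+2)` given by the labels `inl k`, `inl j` and all the labels `inr i` -/
noncomputable def pairP (d m : ℕ) (k j : Fin m) : (Fin m ⊕ Fin d → ℝ) →L[ℝ] EuclideanSpace ℝ (Fin (d + 2)) :=
  LinearMap.toContinuousLinearMap
    { toFun := fun y => WithLp.toLp 2 (Fin.cons (y (Sum.inl k)) (Fin.cons (y (Sum.inl j)) (fun i => y (Sum.inr i))))
      map_add' := by
        intro x y
        ext i
        refine Fin.cases ?_ (fun i => ?_) i
        · simp
        · refine Fin.cases ?_ (fun i => ?_) i <;> simp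
      map_smul' := by
        intro c x
        ext i
        refine Fin.cases ?_ (fun i => ?_) i
        · simp
        · refine Fin.cases ?_ (fun i => ?_) i <;> simp }

/-- the standard labels: `m` equally spaced directions in the plane of the first two coordinates, and the other coordinates -/
noncomputable def pairV (d m : ℕ) : EuclideanSpace ℝ (Fin (d + 2)) →L[ℝ] (Fin m ⊕ Fin d → ℝ) :=
  LinearMap.toContinuousLinearMap
    { toFun := fun u => Sum.elim (fun k => Real.cos (Real.pi * k / m) * u 0 + Real.sin (Real.pi * k / m) * u 1) (fun i => u i.succ.succ)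
      map_add' := by
        intro x y
        ext i
        rcases i with i | i <;> simp <;> ring
      map_smul' := by
        intro c x
        ext i
        rcases i with i | i <;> simp <;> ring }

end Pool.Agent.Helper924_SB
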