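import Pool.Agent.Helper924_SB.Defs

/-! helper924, MP_8115c2_gt, job SB6: the determinants of the standard labels, and their sum.
PROOF IN WORDS. TARGET 1: `V u` has coordinates `cos(π k/m) u_0 + sin(π k/m) u_1` at `inl k` and `u_{i+2}` at `inr i`. The norm bound is coordinatewise
(`pi_norm_le_iff_of_nonneg`; Cauchy-Schwarz, and `|u i| ≤ ‖u‖`). TARGET 2: the matrix of `(pairP k j).comp V` is block upper triangular (in
fact block diagonal) with blocks `[[cos(π k/m), sin(π k/m)], [cos(π j/m), sin(π j/m)]]` and the identity, so the determinant is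
`sin(π j/m) cos(π k/m) - cos(π j/m) sin(π k/m) = sin(π (j-k)/m)`. TARGET 3: for fixed `k` the numbers `|sin(π (j-k)/m)|`, `j < m`, are the numbers
`sin(π r/m)`, `r < m`, in another order (period `π` of `|sin|`); and `(1/m) ∑_{r<m} sin(π r/m)` is a Riemann sum tending to
`(1/π) ∫_0^π sin = 2/π` (or use the closed form `∑_{r<m} sin(π r/m) = cot(π/(2m))` and `x cot x → 1`). -/
open MeasureTheory Metric Set Filter
open scoped ENNReal NNReal Pointwise Topology

namespace Pool.Agent.Helper924_SB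

theorem sb6_inl (d m : ℕ) (u : EuclideanSpace ℝ (Fin (d + 2))) (k : Fin m) :
    pairV d m u (Sum.inl k) =
      Real.cos (Real.pi * k / m) * u 0 + Real.sin (Real.pi * k / m) * u 1 := rfl

theorem sb6_inr (d m : ℕ) (u : EuclideanSpace ℝ (Fin (d + 2))) (i : Fin d) :
    pairV d m u (Sum.inr i) = u i.succ.succ := rfl

theorem pairV_norm (d m : ℕ) (u : EuclideanSpace ℝ (Fin (d + 2))) : ‖pairV d m u‖ ≤ ‖u‖ := by
  rw [pi_norm_le_iff_of_nonneg (norm_nonneg _)]
  rintro (k | i)
  · rw [sb6_inl, Real.norm_eq_abs]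
    apply abs_le_of_sq_le_sq _ (norm_nonneg _)
    rw [EuclideanSpace.real_norm_sq_eq, Fin.sum_univ_succ, Fin.sum_univ_succ]
    have h1 : 0 ≤ ∑ i : Fin d, u i.succ.succ ^ 2 := Finset.sum_nonneg fun i _ => sq_nonneg _
    have h2 := Real.sin_sq_add_cos_sq (Real.pi * k / m)
    have h3 : (Fin.succ 0 : Fin (d + 2)) = 1 := rfl
    rw [h3]
    nlinarith [sq_nonneg (Real.sin (Real.pi * k / m) * u 0 - Real.cos (Real.pi * k / m) * u 1)]
  · rw [sb6_inr]
    exact PiLp.norm_apply_le u _

theorem sb6_c0 (d m : ℕ) (k j : Fin m) (u : EuclideanSpace ℝ (Fin (d + 2))) :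
    (((pairP d m k j).comp (pairV d m)) u) 0 =
      Real.cos (Real.pi * k / m) * u 0 + Real.sin (Real.pi * k / m) * u 1 := rfl

theorem sb6_c1 (d m : ℕ) (k j : Fin m) (u : EuclideanSpace ℝ (Fin (d + 2))) :
    (((pairP d m k j).comp (pairV d m)) u) 1 =
      Real.cos (Real.pi * j / m) * u 0 + Real.sin (Real.pi * j / m) * u 1 := rfl

theorem sb6_cs (d m : ℕ) (k j : Fin m) (u : EuclideanSpace ℝ (Fin (d + 2))) (i : Fin d) :
    (((pairP d m k j).comp (pairV d m)) u) i.succ.succ = u i.succ.succ := rfl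

theorem det_pairV (d m : ℕ) (k j : Fin m) :
    ((pairP d m k j).comp (pairV d m)).det = Real.sin (Real.pi * ((j : ℝ) - k) / m) := by
  set b := (EuclideanSpace.basisFun (Fin (d + 2)) ℝ).toBasis with hb
  have h1 : ((pairP d m k j).comp (pairV d m)).det =
      (LinearMap.toMatrix b b (((pairP d m k j).comp (pairV d m)) : _ →ₗ[ℝ] _)).det := by
    rw [LinearMap.det_toMatrix]
  set M := LinearMap.toMatrix b b (((pairP d m k j).comp (pairV d m)) : _ →ₗ[ℝ] _) with hM
  let e : Fin 2 ⊕ Fin d ≃ Fin (d + 2) := finSumFinEquiv.trans (finCongr (Nat.add_comm 2 d))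
  have e0 : e (Sum.inl 0) = 0 := by apply Fin.ext; simp [e]
  have e1 : e (Sum.inl 1) = 1 := by apply Fin.ext; simp [e]
  have er : ∀ i, e (Sum.inr i) = i.succ.succ := by
    intro i
    apply Fin.ext
    simp [e]
  have hMe : ∀ i l, M i l = (((pairP d m k j).comp (pairV d m)) (EuclideanSpace.single l 1)) i := by
    intro i l
    rw [hM, LinearMap.toMatrix_apply]
    simp [hb]
  have h2 : M.submatrix e e = Matrix.fromBlocks
      !![Real.cos (Real.pi * k / m), Real.sin (Real.pi * k / m);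
        Real.cos (Real.pi * j / m), Real.sin (Real.pi * j / m)] 0 0 1 := by
    have z0 : ∀ i : Fin d, (0 : Fin (d + 2)) ≠ i.succ.succ := fun i => (Fin.succ_ne_zero _).symm
    have z1 : ∀ i : Fin d, (1 : Fin (d + 2)) ≠ i.succ.succ := fun i h => by
      have := congrArg Fin.val h
      simp at this
    have z01 : (0 : Fin (d + 2)) ≠ 1 := by
      intro h
      have := congrArg Fin.val h
      simp at this
    ext x y
    rw [Matrix.submatrix_apply]
    rcases x with x | x <;> rcases y with y | y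
    · fin_cases x <;> fin_cases y
      · show M (e (Sum.inl 0)) (e (Sum.inl 0)) = _
        rw [e0, hMe, sb6_c0]
        simp [z01.symm]
      · show M (e (Sum.inl 0)) (e (Sum.inl 1)) = _
        rw [e0, e1, hMe, sb6_c0]
        simp [z01]
      · show M (e (Sum.inl 1)) (e (Sum.inl 0)) = _
        rw [e0, e1, hMe, sb6_c1]
        simp [z01.symm]
      · show M (e (Sum.inl 1)) (e (Sum.inl 1)) = _
        rw [e1, hMe, sb6_c1]
        simp [z01]
    · fin_cases x
      · show M (e (Sum.inl 0)) (e (Sum.inr y)) = _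
        rw [e0, er, hMe, sb6_c0]
        simp [z0, z1]
      · show M (e (Sum.inl 1)) (e (Sum.inr y)) = _
        rw [e1, er, hMe, sb6_c1]
        simp [z0, z1]
    · fin_cases y
      · show M (e (Sum.inr x)) (e (Sum.inl 0)) = _
        rw [e0, er, hMe, sb6_cs]
        simp
      · show M (e (Sum.inr x)) (e (Sum.inl 1)) = _
        rw [e1, er, hMe, sb6_cs]
        simp [(z1 x).symm]
    · rw [er, er, hMe, sb6_cs]
      simp [Matrix.one_apply]
  rw [h1, ← Matrix.det_submatrix_equiv_self e, h2, Matrix.det_fromBlocks_zero₂₁, Matrix.det_one,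
    mul_one, Matrix.det_fin_two_of]
  have h3 : Real.pi * ((j : ℝ) - k) / m = Real.pi * j / m - Real.pi * k / m := by ring
  rw [h3, Real.sin_sub]
  ring

theorem sb6_sum (m : ℕ) (k : Fin m) : ∑ j : Fin m, |Real.sin (Real.pi * ((j : ℝ) - k) / m)| =
    ∑ r ∈ Finset.range m, Real.sin (Real.pi * r / m) := by
  have hm : 0 < m := lt_of_le_of_lt (Nat.zero_le _) k.2
  have : NeZero m := ⟨hm.ne'⟩
  have hm' : (0 : ℝ) < m := by exact_mod_cast hm
  let g : Fin m → ℝ := fun r => |Real.sin (Real.pi * (r : ℝ) / m)|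
  have h1 : ∀ j : Fin m, |Real.sin (Real.pi * ((j : ℝ) - k) / m)| = g (j - k) := by
    intro j
    show _ = |Real.sin (Real.pi * (((j - k : Fin m) : ℕ) : ℝ) / m)|
    rw [Fin.val_sub]
    have hj := j.2
    have hk := k.2
    rcases le_or_gt (k : ℕ) (j : ℕ) with h | h
    · have e1 : (m - (k : ℕ) + j) % m = j - k := by
        have : m - (k : ℕ) + j = (j - k) + m := by omega
        rw [this, Nat.add_mod_right, Nat.mod_eq_of_lt (by omega)]
      rw [e1, Nat.cast_sub h]
    · have e1 : (m - (k : ℕ) + j) % m = m - k + j := Nat.mod_eq_of_lt (by omega)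
      rw [e1]
      push_cast [Nat.cast_sub hk.le]
      have e2 : Real.pi * ((m : ℝ) - k + j) / m = Real.pi * ((j : ℝ) - k) / m + Real.pi := by
        field_simp
        ring
      rw [e2, Real.sin_add_pi, abs_neg]
  have h2 : ∑ j, g (j - k) = ∑ j, g j := Equiv.sum_comp (Equiv.subRight k) g
  rw [Finset.sum_congr rfl fun j _ => h1 j, h2, Finset.sum_range]
  apply Finset.sum_congr rfl
  intro r _
  apply abs_of_nonneg
  apply Real.sin_nonneg_of_nonneg_of_le_pi
  · positivity
  · rw [div_le_iff₀ hm']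
    have : (r : ℝ) ≤ m := by exact_mod_cast r.2.le
    nlinarith [Real.pi_pos]

theorem sb6_closed (m : ℕ) (hm : 0 < m) :
    (∑ r ∈ Finset.range m, Real.sin (Real.pi * r / m)) * Real.sin (Real.pi / (2 * m)) =
      Real.cos (Real.pi / (2 * m)) := by
  have hm' : (0 : ℝ) < m := by exact_mod_cast hm
  have h1 : ∀ r : ℕ, 2 * (Real.sin (Real.pi * r / m) * Real.sin (Real.pi / (2 * m))) =
      (-Real.cos (Real.pi * (2 * ((r + 1 : ℕ) : ℝ) - 1) / (2 * m))) -
        (-Real.cos (Real.pi * (2 * (r : ℝ) - 1) / (2 * m))) := by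
    intro r
    have e1 : Real.pi * (2 * ((r + 1 : ℕ) : ℝ) - 1) / (2 * m) =
        Real.pi * r / m + Real.pi / (2 * m) := by
      push_cast
      field_simp
      ring
    have e2 : Real.pi * (2 * (r : ℝ) - 1) / (2 * m) =
        Real.pi * r / m - Real.pi / (2 * m) := by
      field_simp
    rw [e1, e2, Real.cos_add, Real.cos_sub]
    ring
  have h2 : 2 * ((∑ r ∈ Finset.range m, Real.sin (Real.pi * r / m)) *
      Real.sin (Real.pi / (2 * m))) = 2 * Real.cos (Real.pi / (2 * m)) := by
    rw [Finset.sum_mul, Finset.mul_sum, Finset.sum_congr rfl fun r _ => h1 r,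
      Finset.sum_range_sub (fun r : ℕ => -Real.cos (Real.pi * (2 * (r : ℝ) - 1) / (2 * m)))]
    have e1 : Real.pi * (2 * (m : ℝ) - 1) / (2 * m) = Real.pi - Real.pi / (2 * m) := by
      field_simp
    have e2 : Real.pi * (2 * ((0 : ℕ) : ℝ) - 1) / (2 * m) = -(Real.pi / (2 * m)) := by
      push_cast
      ring
    rw [e1, e2, Real.cos_pi_sub, Real.cos_neg]
    ring
  linarith

theorem sum_pairV (d : ℕ) : Tendsto (fun m : ℕ => (∑ kj : Fin m × Fin m,
    |((pairP d m kj.1 kj.2).comp (pairV d m)).det|) / (m : ℝ) ^ 2) atTop (𝓝 (2 / Real.pi)) := by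
  have h1 : ∀ m : ℕ, 0 < m → (∑ kj : Fin m × Fin m,
      |((pairP d m kj.1 kj.2).comp (pairV d m)).det|) / (m : ℝ) ^ 2 =
      (2 / Real.pi) * (Real.cos (Real.pi / (2 * m)) *
        (Real.sin (Real.pi / (2 * m)) / (Real.pi / (2 * m)))⁻¹) := by
    intro m hm
    have hm' : (0 : ℝ) < m := by exact_mod_cast hm
    have hpi := Real.pi_pos
    have hs : 0 < Real.sin (Real.pi / (2 * m)) := by
      apply Real.sin_pos_of_pos_of_lt_pi
      · positivity
      · rw [div_lt_iff₀ (by positivity)]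
        have : (1 : ℝ) ≤ m := by exact_mod_cast hm
        nlinarith
    have e1 : (∑ kj : Fin m × Fin m, |((pairP d m kj.1 kj.2).comp (pairV d m)).det|) =
        m * ∑ r ∈ Finset.range m, Real.sin (Real.pi * r / m) := by
      rw [Fintype.sum_prod_type]
      simp only [det_pairV, sb6_sum]
      rw [Finset.sum_const, Finset.card_univ, Fintype.card_fin, nsmul_eq_mul]
    have e2 := sb6_closed m hm
    have e3 : (∑ r ∈ Finset.range m, Real.sin (Real.pi * r / m)) =
        Real.cos (Real.pi / (2 * m)) / Real.sin (Real.pi / (2 * m)) := by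
      rw [eq_div_iff hs.ne', e2]
    rw [e1, e3]
    field_simp
  have hlim : Tendsto (fun m : ℕ => Real.pi / (2 * (m : ℝ))) atTop (𝓝 0) := by
    have := (tendsto_const_div_atTop_nhds_zero_nat (Real.pi / 2))
    refine this.congr fun m => ?_
    ring
  have hlim' : Tendsto (fun m : ℕ => Real.pi / (2 * (m : ℝ))) atTop (𝓝[≠] 0) := by
    rw [tendsto_nhdsWithin_iff]
    refine ⟨hlim, ?_⟩
    filter_upwards [eventually_gt_atTop 0] with m hm
    have hm' : (0 : ℝ) < m := by exact_mod_cast hm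
    have : 0 < Real.pi / (2 * (m : ℝ)) := by have := Real.pi_pos; positivity
    exact this.ne'
  have hsin : Tendsto (fun t : ℝ => Real.sin t / t) (𝓝[≠] 0) (𝓝 1) := by
    have h := (Real.hasDerivAt_sin 0)
    rw [hasDerivAt_iff_tendsto_slope_zero, Real.cos_zero] at h
    refine h.congr fun t => ?_
    simp [div_eq_inv_mul]
  have hcos : Tendsto (fun m : ℕ => Real.cos (Real.pi / (2 * (m : ℝ)))) atTop (𝓝 1) := by
    have := (Real.continuous_cos.tendsto 0).comp hlim
    rwa [Real.cos_zero] at this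
  have h2 := (hcos.mul ((hsin.comp hlim').inv₀ one_ne_zero)).const_mul (2 / Real.pi)
  rw [inv_one, mul_one, mul_one] at h2
  refine h2.congr' ?_
  filter_upwards [eventually_gt_atTop 0] with m hm
  exact (h1 m hm).symm

end Pool.Agent.Helper924_SB
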