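import Pool.Agent.Helper924_SB.BM

/-! helper924, MP_8115c2_gt, job SB4: slicing bound.
PROOF IN WORDS. `A` is the set of `u ∈ ℝ^(d+2)` with `|u (i+2)| ≤ 1` for all `i : Fin d` and `|p k u| ≤ 1` for all `k`, where `p k` are linear forms.
Split `u = (z, t)`, `z ∈ ℝ²` (coordinates 0, 1), `t ∈ ℝ^d` (the others); this is a measure preserving identification of
`EuclideanSpace ℝ (Fin (d+2))` with `(Fin 2 → ℝ) × (Fin d → ℝ)` (`EuclideanSpace.volume_preserving_symm_measurableEquiv_toLp`,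
`MeasureTheory.volume_preserving_piFinSuccAbove` or `MeasurableEquiv.piFinSuccAbove`/`sumPiEquivProdPi`; `Fin.append`/`Fin.cons`). By Fubini
`volume A = ∫⁻ t in {t | ∀ i, |t i| ≤ 1}, volume (A_t)`, `A_t = {z | ∀ k, |p k (z,t)| ≤ 1}`, and `A_{-t} = -A_t`, while `(x + y)/2 ∈ A_0` for `x ∈ A_t`,
`y ∈ A_{-t}`; so `volume (A_t) ^ 2 = volume (A_t) * volume (A_{-t}) ≤ volume (A_0) ^ 2` by `bm` (given), i.e. `volume (A_t) ≤ volume (A_0)`.
Finally `volume {t | ∀ i, |t i| ≤ 1} = 2 ^ d`, and `A_0 = {z | ∀ k, |p k e_0 * z 0 + p k e_1 * z 1| ≤ 1}`. -/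
open MeasureTheory Metric Set
open scoped ENNReal Pointwise

namespace Pool.Agent.Helper924_SB

namespace sliceAux

/-- the slice of the body at height `r`, where `r k` is the value of the `k`-th form on `t` -/
def Sl {κ : Type} (a b r : κ → ℝ) : Set (Fin 2 → ℝ) := {z | ∀ k, |a k * z 0 + b k * z 1 + r k| ≤ 1}

theorem isClosed_Sl {κ : Type} (a b r : κ → ℝ) : IsClosed (Sl a b r) := by
  have : Sl a b r = ⋂ k, {z : Fin 2 → ℝ | |a k * z 0 + b k * z 1 + r k| ≤ 1} := by
    ext z; simp [Sl]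
  rw [this]
  exact isClosed_iInter fun k => isClosed_le (by fun_prop) continuous_const

theorem vol_Sl {κ : Type} (a b r : κ → ℝ) : volume (Sl a b r) ≤ volume (Sl a b 0) := by
  have hneg : volume (Sl a b (-r)) = volume (Sl a b r) := by
    have h1 : Sl a b (-r) = -(Sl a b r) := by
      ext z
      simp only [Sl, mem_ofPred_eq, Set.mem_neg, Pi.neg_apply]
      refine forall_congr' fun k => ?_
      rw [show a k * -z 0 + b k * -z 1 + r k = -(a k * z 0 + b k * z 1 + -r k) by ring, abs_neg]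
    rw [h1, Measure.measure_neg]
  have h2 := bm (Sl a b r) (Sl a b (-r)) (Sl a b 0) (isClosed_Sl _ _ _).measurableSet
    (isClosed_Sl _ _ _).measurableSet (isClosed_Sl _ _ _).measurableSet (by
      intro x hx y hy k
      have hx' := abs_le.1 (hx k)
      have hy' := abs_le.1 (hy k)
      simp only [Pi.neg_apply] at hy'
      simp only [Pi.zero_apply]
      rw [abs_le]
      constructor <;> linarith)
  rw [hneg, ← sq] at h2
  by_contra hc
  exact absurd h2 (not_le.2 (ENNReal.pow_lt_pow_left two_ne_zero (not_le.1 hc)))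

/-- the equivalence of index types -/
def e (d : ℕ) : Fin 2 ⊕ Fin d ≃ Fin (d + 2) := finSumFinEquiv.trans (finCongr (Nat.add_comm 2 d))

/-- the identification -/
noncomputable def Psi (d : ℕ) : (Fin 2 → ℝ) × (Fin d → ℝ) ≃ᵐ EuclideanSpace ℝ (Fin (d + 2)) :=
  ((MeasurableEquiv.sumPiEquivProdPi (fun _ : Fin 2 ⊕ Fin d => ℝ)).symm.trans
    (MeasurableEquiv.piCongrLeft (fun _ : Fin (d + 2) => ℝ) (e d))).trans
    (MeasurableEquiv.toLp 2 (Fin (d + 2) → ℝ))

theorem Psi_mp (d : ℕ) : MeasurePreserving (Psi d) volume volume :=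
  ((volume_measurePreserving_sumPiEquivProdPi_symm (fun _ : Fin 2 ⊕ Fin d => ℝ)).trans
    (volume_measurePreserving_piCongrLeft (fun _ : Fin (d + 2) => ℝ) (e d))).trans
    (EuclideanSpace.volume_preserving_symm_measurableEquiv_toLp (Fin (d + 2))).symm

theorem Psi_apply (d : ℕ) (z : Fin 2 → ℝ) (t : Fin d → ℝ) (j : Fin 2 ⊕ Fin d) :
    Psi d (z, t) (e d j) = Sum.elim z t j := by
  change (Equiv.piCongrLeft (fun _ : Fin (d + 2) => ℝ) (e d)) _ (e d j) = _
  rw [Equiv.piCongrLeft_apply_apply]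
  cases j <;> rfl

theorem Psi_0 (d : ℕ) (z : Fin 2 → ℝ) (t : Fin d → ℝ) : Psi d (z, t) 0 = z 0 := by
  have := Psi_apply d z t (Sum.inl 0)
  rwa [show e d (Sum.inl 0) = 0 from rfl] at this

theorem Psi_1 (d : ℕ) (z : Fin 2 → ℝ) (t : Fin d → ℝ) : Psi d (z, t) 1 = z 1 := by
  have := Psi_apply d z t (Sum.inl 1)
  rwa [show e d (Sum.inl 1) = 1 from rfl] at this

theorem Psi_succ (d : ℕ) (z : Fin 2 → ℝ) (t : Fin d → ℝ) (i : Fin d) :
    Psi d (z, t) i.succ.succ = t i := by
  have := Psi_apply d z t (Sum.inr i)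
  rwa [show e d (Sum.inr i) = i.succ.succ from by
    ext; simp [e, finSumFinEquiv]] at this

theorem expand (d : ℕ) (f : EuclideanSpace ℝ (Fin (d + 2)) →ₗ[ℝ] ℝ)
    (u : EuclideanSpace ℝ (Fin (d + 2))) :
    f u = f (EuclideanSpace.single 0 1) * u 0 + f (EuclideanSpace.single 1 1) * u 1 +
      ∑ i : Fin d, u i.succ.succ * f (EuclideanSpace.single i.succ.succ 1) := by
  have hu : u = ∑ i, u i • EuclideanSpace.single i (1 : ℝ) := by
    ext j
    simp [Pi.single_apply]
  conv_lhs => rw [hu, map_sum]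
  simp only [map_smul, smul_eq_mul]
  rw [Fin.sum_univ_succ, Fin.sum_univ_succ]
  rw [show (Fin.succ 0 : Fin (d + 2)) = 1 from rfl]
  ring

end sliceAux

open sliceAux

theorem slice (d : ℕ) {κ : Type} [Finite κ] (p : κ → EuclideanSpace ℝ (Fin (d + 2)) →ₗ[ℝ] ℝ) :
    volume {u : EuclideanSpace ℝ (Fin (d + 2)) | (∀ i : Fin d, |u i.succ.succ| ≤ 1) ∧ ∀ k, |p k u| ≤ 1} ≤
      2 ^ d * volume {z : Fin 2 → ℝ | ∀ k, |p k (EuclideanSpace.single 0 1) * z 0 + p k (EuclideanSpace.single 1 1) * z 1| ≤ 1} := by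
  let a : κ → ℝ := fun k => p k (EuclideanSpace.single 0 1)
  let b : κ → ℝ := fun k => p k (EuclideanSpace.single 1 1)
  let r : (Fin d → ℝ) → κ → ℝ := fun t k =>
    ∑ i : Fin d, t i * p k (EuclideanSpace.single i.succ.succ 1)
  let B : Set ((Fin 2 → ℝ) × (Fin d → ℝ)) :=
    {q | (∀ i, |q.2 i| ≤ 1) ∧ ∀ k, |a k * q.1 0 + b k * q.1 1 + r q.2 k| ≤ 1}
  have hB : IsClosed B := by
    have : B = (⋂ i, {q | |q.2 i| ≤ 1}) ∩ ⋂ k, {q | |a k * q.1 0 + b k * q.1 1 + r q.2 k| ≤ 1} := by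
      ext q; simp [B]
    rw [this]
    exact (isClosed_iInter fun i => isClosed_le (by fun_prop) continuous_const).inter
      (isClosed_iInter fun k => isClosed_le (by fun_prop) continuous_const)
  have h1 : volume {u : EuclideanSpace ℝ (Fin (d + 2)) | (∀ i : Fin d, |u i.succ.succ| ≤ 1) ∧
      ∀ k, |p k u| ≤ 1} = volume B := by
    rw [← (Psi_mp d).measure_preimage_equiv]
    congr 1
    ext ⟨z, t⟩
    simp only [mem_preimage, mem_ofPred_eq, Psi_succ, B]
    refine and_congr Iff.rfl (forall_congr' fun k => ?_)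
    rw [expand, Psi_0, Psi_1]
    simp only [Psi_succ]
    rfl
  rw [h1, Measure.volume_eq_prod, Measure.prod_apply_symm hB.measurableSet]
  have h0 : {z : Fin 2 → ℝ | ∀ k, |p k (EuclideanSpace.single 0 1) * z 0 +
      p k (EuclideanSpace.single 1 1) * z 1| ≤ 1} = Sl a b 0 := by
    ext z; simp [Sl, a, b]
  rw [h0]
  have hbox : {t : Fin d → ℝ | ∀ i, |t i| ≤ 1} = Icc (fun _ => -1) (fun _ => 1) := by
    ext t
    simp only [mem_ofPred_eq, mem_Icc, Pi.le_def, abs_le]
    exact forall_and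
  have hboxm : MeasurableSet {t : Fin d → ℝ | ∀ i, |t i| ≤ 1} := by
    rw [hbox]; exact measurableSet_Icc
  calc ∫⁻ t, volume ((fun z => (z, t)) ⁻¹' B)
      ≤ ∫⁻ t, ({t : Fin d → ℝ | ∀ i, |t i| ≤ 1}).indicator (fun _ => volume (Sl a b 0)) t := by
        refine lintegral_mono fun t => ?_
        by_cases ht : ∀ i, |t i| ≤ 1
        · rw [indicator_of_mem (by exact ht)]
          refine le_trans (measure_mono ?_) (vol_Sl a b (r t))
          rintro z ⟨-, hz⟩
          exact hz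
        · have : (fun z => (z, t)) ⁻¹' B = ∅ := by
            ext z
            simp only [mem_preimage, mem_empty_iff_false, iff_false]
            exact fun h => ht h.1
          rw [this, measure_empty]
          exact zero_le
    _ = volume (Sl a b 0) * volume {t : Fin d → ℝ | ∀ i, |t i| ≤ 1} := by
        rw [lintegral_indicator hboxm, setLIntegral_const]
    _ = 2 ^ d * volume (Sl a b 0) := by
        rw [hbox, Real.volume_Icc_pi, mul_comm]
        congr 1
        simp only [Finset.prod_const, Finset.card_univ, Fintype.card_fin]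
        norm_num

end Pool.Agent.Helper924_SB
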