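import Pool.Agent.Helper924_SB.Planar
import Pool.Agent.Helper924_SB.Slice

/-! helper924, MP_8115c2_gt, job SB5: the determinant inequality for the pairs of labels.
PROOF IN WORDS. Write `E = EuclideanSpace ℝ (Fin (d+2))`. (1) First let `G` satisfy `G u (inr i) = u i.succ.succ` for all `u`, `i`. With
`l k = ![G e_0 (inl k), G e_1 (inl k)]` one has `|det ((pairP k j).comp G)| = |wd (l k) (l j)|`: the matrix of `(pairP k j).comp G` in the
standard basis (`EuclideanSpace.basisFun`, `LinearMap.det_toMatrix`/`ContinuousLinearMap.det`) is block upper triangular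
(`Matrix.det_fromBlocks`…, or expand twice with `Matrix.det_succ_row_zero`/`Matrix.det_succ_column`: rows `i+2` are the unit rows `e_{i+2}`), with
`2 × 2` block `[[l k 0, l k 1], [l j 0, l j 1]]`. The set `{u | ‖G u‖ ≤ 1}` (sup norm, `pi_norm_le_iff_of_nonneg`) is the set of
`slice` (given) with `p k u = G u (inl k)`. So by `slice` and `planar` (given) the left side is at most
`2^d * (∑_{k,j} |wd (l k) (l j)|) * volume {z | ∀ k, |l k 0 * z 0 + l k 1 * z 1| ≤ 1} ≤ 2^d * 2 * m^2`.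
(2) For general `G`: if all the determinants `det ((pairP k j).comp G)` are `0` the left side is `0`. Otherwise let `Φ = (pairP k0 j0).comp G` with
`det Φ ≠ 0`, so `Φ` is invertible, `G' = G ∘ Φ⁻¹` satisfies `G' u (inr i) = u i.succ.succ` (as `(Φ u) i.succ.succ = G u (inr i)`), and
`det ((pairP k j).comp G) = det ((pairP k j).comp G') * det Φ`, `volume {u | ‖G u‖ ≤ 1} = |det Φ|⁻¹ * volume {u | ‖G' u‖ ≤ 1}`
(`Measure.addHaar_preimage_linearMap`/`addHaar_image_continuousLinearMap`). -/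
open MeasureTheory Metric Set
open scoped ENNReal NNReal Pointwise

namespace Pool.Agent.Helper924_SB

theorem sb5_det (d : ℕ) : ∀ A : Matrix (Fin (d + 2)) (Fin (d + 2)) ℝ,
    (∀ (i : Fin d) (c : Fin (d + 2)), A i.succ.succ c = if c = i.succ.succ then 1 else 0) →
    A.det = A 0 0 * A 1 1 - A 0 1 * A 1 0 := by
  induction d with
  | zero =>
    intro A _
    rw [Matrix.det_fin_two]
  | succ d ih =>
    intro A hA
    rw [Matrix.det_succ_row A (Fin.last (d + 2))]
    have hl : (Fin.last (d + 2)) = (Fin.last d).succ.succ := rfl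
    rw [Finset.sum_eq_single (Fin.last (d + 2))]
    · have h1 : A (Fin.last (d + 2)) (Fin.last (d + 2)) = 1 := by
        conv_lhs => rw [hl]
        rw [hA]
        simp
      rw [h1, ih]
      · have h2 : ((-1 : ℝ)) ^ ((Fin.last (d + 2) : Fin (d + 3)).val + (Fin.last (d + 2) : Fin (d + 3)).val) = 1 := by
          rw [← two_mul, pow_mul]
          norm_num
        rw [h2]
        simp only [Matrix.submatrix_apply, Fin.succAbove_last]
        have e0 : Fin.castSucc (0 : Fin (d + 2)) = 0 := rfl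
        have e1 : Fin.castSucc (1 : Fin (d + 2)) = 1 := rfl
        rw [e0, e1]
        ring
      · intro i c
        simp only [Matrix.submatrix_apply, Fin.succAbove_last]
        have e2 : Fin.castSucc (i.succ.succ) = (Fin.castSucc i).succ.succ := rfl
        rw [e2, hA, ← e2]
        simp only [Fin.castSucc_inj]
    · intro b _ hb
      have h1 : A (Fin.last (d + 2)) b = 0 := by
        conv_lhs => rw [hl]
        rw [hA, if_neg]
        exact hb
      rw [h1]
      ring
    · intro h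
      exact absurd (Finset.mem_univ _) h

theorem sb5_pair (d m : ℕ) (k j : Fin m) (y : Fin m ⊕ Fin d → ℝ) :
    pairP d m k j y = WithLp.toLp 2 (Fin.cons (y (Sum.inl k)) (Fin.cons (y (Sum.inl j)) (fun i => y (Sum.inr i)))) :=
  rfl

theorem sb5_detP (d m : ℕ) (k j : Fin m) (G : EuclideanSpace ℝ (Fin (d + 2)) →L[ℝ] (Fin m ⊕ Fin d → ℝ))
    (hG : ∀ u (i : Fin d), G u (Sum.inr i) = u i.succ.succ) :
    ((pairP d m k j).comp G).det =
      G (EuclideanSpace.single 0 1) (Sum.inl k) * G (EuclideanSpace.single 1 1) (Sum.inl j)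
        - G (EuclideanSpace.single 1 1) (Sum.inl k) * G (EuclideanSpace.single 0 1) (Sum.inl j) := by
  have h0 : ((pairP d m k j).comp G).det = LinearMap.det (((pairP d m k j).comp G : EuclideanSpace ℝ (Fin (d + 2)) →L[ℝ] EuclideanSpace ℝ (Fin (d + 2))) : EuclideanSpace ℝ (Fin (d + 2)) →ₗ[ℝ] EuclideanSpace ℝ (Fin (d + 2))) := rfl
  rw [h0, ← LinearMap.det_toMatrix (EuclideanSpace.basisFun (Fin (d + 2)) ℝ).toBasis]
  have he : ∀ r c, (LinearMap.toMatrix (EuclideanSpace.basisFun (Fin (d + 2)) ℝ).toBasis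
      (EuclideanSpace.basisFun (Fin (d + 2)) ℝ).toBasis
      (((pairP d m k j).comp G : EuclideanSpace ℝ (Fin (d + 2)) →L[ℝ] EuclideanSpace ℝ (Fin (d + 2))) : EuclideanSpace ℝ (Fin (d + 2)) →ₗ[ℝ] EuclideanSpace ℝ (Fin (d + 2)))) r c =
      (pairP d m k j (G (EuclideanSpace.single c 1))) r := by
    intro r c
    rw [LinearMap.toMatrix_apply]
    simp
  rw [sb5_det]
  · rw [he, he, he, he]
    simp only [sb5_pair]
    rfl
  · intro i c
    rw [he, sb5_pair]
    simp only [Fin.cons_succ]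
    rw [hG]
    simp [Pi.single_apply, eq_comm]

theorem sb5_special (d m : ℕ) (G : EuclideanSpace ℝ (Fin (d + 2)) →L[ℝ] (Fin m ⊕ Fin d → ℝ))
    (hG : ∀ u (i : Fin d), G u (Sum.inr i) = u i.succ.succ) :
    (∑ kj : Fin m × Fin m, ENNReal.ofReal |((pairP d m kj.1 kj.2).comp G).det|) *
      volume {u : EuclideanSpace ℝ (Fin (d + 2)) | ‖G u‖ ≤ 1} ≤ 2 ^ (d + 1) * (m : ℝ≥0∞) ^ 2 := by
  let p : Fin m → EuclideanSpace ℝ (Fin (d + 2)) →ₗ[ℝ] ℝ := fun k =>
    (LinearMap.proj (Sum.inl k)).comp (G : EuclideanSpace ℝ (Fin (d + 2)) →ₗ[ℝ] (Fin m ⊕ Fin d → ℝ))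
  have hp : ∀ k u, p k u = G u (Sum.inl k) := fun k u => rfl
  have h1 : {u : EuclideanSpace ℝ (Fin (d + 2)) | ‖G u‖ ≤ 1} =
      {u : EuclideanSpace ℝ (Fin (d + 2)) | (∀ i : Fin d, |u i.succ.succ| ≤ 1) ∧ ∀ k, |p k u| ≤ 1} := by
    ext u
    simp only [mem_setOf_eq]
    rw [pi_norm_le_iff_of_nonneg zero_le_one]
    constructor
    · intro h
      refine ⟨fun i => ?_, fun k => ?_⟩
      · have := h (Sum.inr i)
        rwa [hG, Real.norm_eq_abs] at this
      · have := h (Sum.inl k)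
        rwa [Real.norm_eq_abs] at this
    · rintro ⟨h, h'⟩ (k | i)
      · rw [Real.norm_eq_abs]
        exact h' k
      · rw [hG, Real.norm_eq_abs]
        exact h i
  have h2 := slice d p
  rw [← h1] at h2
  let l : ℕ → Fin 2 → ℝ := fun k => if h : k < m then
    ![G (EuclideanSpace.single 0 1) (Sum.inl ⟨k, h⟩), G (EuclideanSpace.single 1 1) (Sum.inl ⟨k, h⟩)] else 0
  have hl : ∀ k : Fin m, l k = ![G (EuclideanSpace.single 0 1) (Sum.inl k), G (EuclideanSpace.single 1 1) (Sum.inl k)] := by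
    intro k
    simp [l]
  have h3 := planar m l
  have h4 : {z : Fin 2 → ℝ | ∀ k < m, |l k 0 * z 0 + l k 1 * z 1| ≤ 1} =
      {z : Fin 2 → ℝ | ∀ k, |p k (EuclideanSpace.single 0 1) * z 0 + p k (EuclideanSpace.single 1 1) * z 1| ≤ 1} := by
    ext z
    simp only [mem_setOf_eq]
    constructor
    · intro h k
      have := h k.1 k.2
      rw [hl] at this
      simpa [hp] using this
    · intro h k hk
      have := h ⟨k, hk⟩
      have e := hl ⟨k, hk⟩
      simp only at e
      rw [e]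
      simpa [hp] using this
  rw [h4] at h3
  have h5 : (∑ kj : Fin m × Fin m, ENNReal.ofReal |((pairP d m kj.1 kj.2).comp G).det|) =
      ENNReal.ofReal (∑ k ∈ Finset.range m, ∑ j ∈ Finset.range m, |wd (l k) (l j)|) := by
    rw [ENNReal.ofReal_sum_of_nonneg (fun i _ => Finset.sum_nonneg (fun j _ => abs_nonneg _))]
    rw [Fintype.sum_prod_type, Finset.sum_range]
    refine Finset.sum_congr rfl fun k _ => ?_
    rw [ENNReal.ofReal_sum_of_nonneg (fun j _ => abs_nonneg _), Finset.sum_range]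
    refine Finset.sum_congr rfl fun j _ => ?_
    rw [sb5_detP d m k j G hG, hl, hl]
    simp [wd]
  rw [h5]
  calc _ ≤ ENNReal.ofReal (∑ k ∈ Finset.range m, ∑ j ∈ Finset.range m, |wd (l k) (l j)|) *
        (2 ^ d * volume {z : Fin 2 → ℝ | ∀ k, |p k (EuclideanSpace.single 0 1) * z 0 + p k (EuclideanSpace.single 1 1) * z 1| ≤ 1}) := by
        gcongr
    _ = 2 ^ d * (ENNReal.ofReal (∑ k ∈ Finset.range m, ∑ j ∈ Finset.range m, |wd (l k) (l j)|) *
        volume {z : Fin 2 → ℝ | ∀ k, |p k (EuclideanSpace.single 0 1) * z 0 + p k (EuclideanSpace.single 1 1) * z 1| ≤ 1}) := by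
        ring
    _ ≤ 2 ^ d * (2 * (m : ℝ≥0∞) ^ 2) := by gcongr
    _ = _ := by ring

theorem det_bound_pair (d m : ℕ) (G : EuclideanSpace ℝ (Fin (d + 2)) →L[ℝ] (Fin m ⊕ Fin d → ℝ)) :
    (∑ kj : Fin m × Fin m, ENNReal.ofReal |((pairP d m kj.1 kj.2).comp G).det|) *
      volume {u : EuclideanSpace ℝ (Fin (d + 2)) | ‖G u‖ ≤ 1} ≤ 2 ^ (d + 1) * (m : ℝ≥0∞) ^ 2 := by
  by_cases hz : ∀ kj : Fin m × Fin m, ((pairP d m kj.1 kj.2).comp G).det = 0
  · simp [hz]
  · push_neg at hz
    obtain ⟨⟨k0, j0⟩, h0⟩ := hz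
    simp only at h0
    let Φ : EuclideanSpace ℝ (Fin (d + 2)) →L[ℝ] EuclideanSpace ℝ (Fin (d + 2)) := (pairP d m k0 j0).comp G
    have hΦ : Φ.det ≠ 0 := h0
    let Ψ := Φ.toContinuousLinearEquivOfDetNeZero hΦ
    have hΨ : ∀ u, Ψ u = Φ u := fun u => rfl
    let G' : EuclideanSpace ℝ (Fin (d + 2)) →L[ℝ] (Fin m ⊕ Fin d → ℝ) := G.comp (Ψ.symm : _ →L[ℝ] _)
    have hG' : ∀ u, G' (Φ u) = G u := by
      intro u
      change G (Ψ.symm (Ψ u)) = G u
      rw [ContinuousLinearEquiv.symm_apply_apply]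
    have hG2 : ∀ u (i : Fin d), G' u (Sum.inr i) = u i.succ.succ := by
      intro u i
      have h1 : Φ (Ψ.symm u) = u := by
        rw [← hΨ, ContinuousLinearEquiv.apply_symm_apply]
      have h2 : (Φ (Ψ.symm u)) i.succ.succ = G (Ψ.symm u) (Sum.inr i) := by
        change (pairP d m k0 j0 (G (Ψ.symm u))) i.succ.succ = _
        rw [sb5_pair]
        simp only [Fin.cons_succ]
      rw [h1] at h2
      exact h2.symm
    have h3 := sb5_special d m G' hG2
    have h4 : ∀ k j, ((pairP d m k j).comp G).det = ((pairP d m k j).comp G').det * Φ.det := by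
      intro k j
      have h5 : ((pairP d m k j).comp G) = ((pairP d m k j).comp G').comp Φ := by
        ext1 u
        simp only [ContinuousLinearMap.comp_apply, hG']
      rw [h5]
      exact LinearMap.det_comp _ _
    have h6 : volume {u : EuclideanSpace ℝ (Fin (d + 2)) | ‖G u‖ ≤ 1} =
        ENNReal.ofReal |Φ.det⁻¹| * volume {u : EuclideanSpace ℝ (Fin (d + 2)) | ‖G' u‖ ≤ 1} := by
      have h7 : {u : EuclideanSpace ℝ (Fin (d + 2)) | ‖G u‖ ≤ 1} =
          Φ ⁻¹' {u : EuclideanSpace ℝ (Fin (d + 2)) | ‖G' u‖ ≤ 1} := by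
        ext u
        simp only [mem_setOf_eq, mem_preimage, hG']
      rw [h7]
      exact Measure.addHaar_preimage_continuousLinearMap volume hΦ _
    have h8 : (∑ kj : Fin m × Fin m, ENNReal.ofReal |((pairP d m kj.1 kj.2).comp G).det|) =
        (∑ kj : Fin m × Fin m, ENNReal.ofReal |((pairP d m kj.1 kj.2).comp G').det|) * ENNReal.ofReal |Φ.det| := by
      rw [Finset.sum_mul]
      refine Finset.sum_congr rfl fun kj _ => ?_
      rw [h4, abs_mul, ENNReal.ofReal_mul (abs_nonneg _)]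
    have h9 : ENNReal.ofReal |Φ.det| * ENNReal.ofReal |Φ.det⁻¹| = 1 := by
      rw [← ENNReal.ofReal_mul (abs_nonneg _), ← abs_mul, mul_inv_cancel₀ hΦ]
      simp
    rw [h6, h8]
    calc _ = (ENNReal.ofReal |Φ.det| * ENNReal.ofReal |Φ.det⁻¹|) *
        ((∑ kj : Fin m × Fin m, ENNReal.ofReal |((pairP d m kj.1 kj.2).comp G').det|) *
      volume {u : EuclideanSpace ℝ (Fin (d + 2)) | ‖G' u‖ ≤ 1}) := by ring
      _ ≤ _ := by
        rw [h9, one_mul]
        exact h3

end Pool.Agent.Helper924_SB
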