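import Pool.Agent.Helper924_SB.Zono
import Pool.Agent.Helper924_SB.BM

/-! helper924, MP_8115c2_gt, job SB3: planar inequality (Minkowski's inequality for the mixed area with a zonotope).
PROOF IN WORDS. Let `W = ∑_{j<k<m} |wd (l j) (l k)|`, so the double sum in the claim is `2 W`. If `W = 0` the claim is trivial (`0 * ⊤ = 0`).
Otherwise two of the `l k` are linearly independent, so `S = {z | ∀ k < m, |l k 0 * z 0 + l k 1 * z 1| ≤ 1}` is compact, convex, symmetric,
contains `0` in the interior, `0 < volume S < ∞`. Let `S' = {z | ![z 1, -z 0] ∈ S}` be the rotated body (same volume: the map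
`z ↦ ![z 1, -z 0]` is measure preserving, its determinant is `1`; alternatively use `Real.volume_preserving_transvectionStruct`/
`MeasureTheory.Measure.addHaar_preimage_linearMap`). Then for `z ∈ S'`, `⟨![-l k 1, l k 0], z⟩ = l k 0 * z 1 - l k 1 * z 0 =
⟨l k, ![z 1, -z 0]⟩ ≤ 1`, so `hs S' ![-l k 1, l k 0] ≤ 1`. Let `s > 0` with `s^2 * (4 W) = volume S` (as real numbers). By `vol_Zn` (given)
with `a k = s • l k`: `volume (Zn a {0} m) = 4 s^2 W = volume S` and `volume (Zn a S' m) = volume S + 4 s ∑_k hs S' (..) + 4 s^2 W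
≤ 2 volume S + 4 s m` (`hs S' (c u) = c hs S' u`, `c ≥ 0`). On the other hand `bm` (given) with `A = S'`, `B = Zn a {0} m`, `C = (1/2) • Zn a S' m`
(note `Zn a S' m = S' + Zn a {0} m` by induction) gives `volume S ^ 2 ≤ (volume (Zn a S' m) / 4)^2`, so
`4 volume S ≤ 2 volume S + 4 s m`, i.e. `volume S ≤ 2 s m`, and squaring: `(volume S)^2 ≤ 4 s^2 m^2 = m^2 volume S / W`, so `W * volume S ≤ m^2`. -/
open MeasureTheory Metric Set
open scoped ENNReal Pointwise

namespace Pool.Agent.Helper924_SB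

theorem h135_dbl (l : ℕ → Fin 2 → ℝ) (m : ℕ) :
    ∑ k ∈ Finset.range m, ∑ j ∈ Finset.range m, |wd (l k) (l j)| =
      2 * ∑ k ∈ Finset.range m, ∑ j ∈ Finset.range k, |wd (l j) (l k)| := by
  induction m with
  | zero => simp
  | succ m ih =>
    have h1 : ∀ k, ∑ j ∈ Finset.range (m + 1), |wd (l k) (l j)| =
        ∑ j ∈ Finset.range m, |wd (l k) (l j)| + |wd (l k) (l m)| := fun k =>
      Finset.sum_range_succ _ _
    have h0 : |wd (l m) (l m)| = 0 := by
      rw [abs_eq_zero]
      unfold wd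
      ring
    have hs : ∑ j ∈ Finset.range m, |wd (l m) (l j)| = ∑ j ∈ Finset.range m, |wd (l j) (l m)| := by
      refine Finset.sum_congr rfl fun j _ => ?_
      rw [← abs_neg]
      congr 1
      unfold wd
      ring
    rw [Finset.sum_range_succ, Finset.sum_range_succ (fun k => ∑ j ∈ Finset.range k, |wd (l j) (l k)|)]
    simp_rw [h1]
    rw [Finset.sum_add_distrib, ih, h0, hs]
    ring

theorem h135_add_mem (a : ℕ → Fin 2 → ℝ) (S : Set (Fin 2 → ℝ)) (m : ℕ) :
    ∀ x ∈ S, ∀ y ∈ Zn a {0} m, x + y ∈ Zn a S m := by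
  induction m with
  | zero =>
    intro x hx y hy
    have : y = 0 := hy
    rw [this, add_zero]
    exact hx
  | succ m ih =>
    intro x hx y hy
    obtain ⟨u, hu, v, hv, rfl⟩ := Set.mem_add.1 (show y ∈ Zn a {0} m + segment ℝ (-(a m)) (a m) from hy)
    have h := Set.add_mem_add (ih x hx u hu) hv
    rw [add_assoc] at h
    exact h

/-- rotation -/
noncomputable def h135_rot : (Fin 2 → ℝ) →ₗ[ℝ] (Fin 2 → ℝ) := Matrix.toLin' !![0, 1; -1, 0]

theorem h135_rot_apply (z : Fin 2 → ℝ) : h135_rot z = ![z 1, -z 0] := by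
  funext i
  fin_cases i <;> simp [h135_rot, Matrix.toLin'_apply, Matrix.mulVec, dotProduct, Fin.sum_univ_two]

theorem h135_rot_det : LinearMap.det h135_rot = 1 := by
  unfold h135_rot
  rw [LinearMap.det_toLin']
  simp [Matrix.det_fin_two]

/-- the body -/
def h135_S (m : ℕ) (l : ℕ → Fin 2 → ℝ) : Set (Fin 2 → ℝ) :=
  {z : Fin 2 → ℝ | ∀ k < m, |l k 0 * z 0 + l k 1 * z 1| ≤ 1}

theorem h135_S_closed (m : ℕ) (l : ℕ → Fin 2 → ℝ) : IsClosed (h135_S m l) := by
  have : h135_S m l = ⋂ k, ⋂ (_ : k < m), {z : Fin 2 → ℝ | |l k 0 * z 0 + l k 1 * z 1| ≤ 1} := by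
    ext z
    simp [h135_S]
  rw [this]
  refine isClosed_iInter fun k => isClosed_iInter fun _ => ?_
  exact isClosed_le (by fun_prop) continuous_const

theorem h135_S_bdd (m : ℕ) (l : ℕ → Fin 2 → ℝ) (j k : ℕ) (hj : j < m) (hk : k < m)
    (h : wd (l j) (l k) ≠ 0) : Bornology.IsBounded (h135_S m l) := by
  rw [isBounded_iff_forall_norm_le]
  refine ⟨(|l j 0| + |l j 1| + |l k 0| + |l k 1|) / |wd (l j) (l k)|, fun z hz => ?_⟩
  have h1 := hz j hj
  have h2 := hz k hk
  have hpos : 0 < |wd (l j) (l k)| := abs_pos.2 h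
  rw [pi_norm_le_iff_of_nonneg (by positivity)]
  have e0 : z 0 * wd (l j) (l k) =
      l k 1 * (l j 0 * z 0 + l j 1 * z 1) - l j 1 * (l k 0 * z 0 + l k 1 * z 1) := by
    unfold wd
    ring
  have e1 : z 1 * wd (l j) (l k) =
      l j 0 * (l k 0 * z 0 + l k 1 * z 1) - l k 0 * (l j 0 * z 0 + l j 1 * z 1) := by
    unfold wd
    ring
  have key : ∀ a b x y : ℝ, |x| ≤ 1 → |y| ≤ 1 → |a * x - b * y| ≤ |a| + |b| := by
    intro a b x y hx hy
    calc |a * x - b * y| ≤ |a * x| + |b * y| := abs_sub _ _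
      _ = |a| * |x| + |b| * |y| := by rw [abs_mul, abs_mul]
      _ ≤ |a| * 1 + |b| * 1 := by gcongr
      _ = |a| + |b| := by ring
  intro i
  rw [Real.norm_eq_abs, le_div_iff₀ hpos, ← abs_mul]
  have a1 := abs_nonneg (l j 0)
  have a2 := abs_nonneg (l j 1)
  have a3 := abs_nonneg (l k 0)
  have a4 := abs_nonneg (l k 1)
  fin_cases i
  · change |z 0 * wd (l j) (l k)| ≤ _
    rw [e0]
    have := key (l k 1) (l j 1) _ _ h1 h2
    linarith
  · change |z 1 * wd (l j) (l k)| ≤ _
    rw [e1]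
    have := key (l j 0) (l k 0) _ _ h2 h1
    linarith

theorem h135_hs_zero (u : Fin 2 → ℝ) : hs {0} u = 0 := by
  unfold hs
  simp

theorem h135_main (m : ℕ) (l : ℕ → Fin 2 → ℝ) (S' : Set (Fin 2 → ℝ)) (V W : ℝ) (hV : 0 < V)
    (hW : 0 < W)
    (hWe : W = ∑ k ∈ Finset.range m, ∑ j ∈ Finset.range k, |wd (l j) (l k)|)
    (hcomp : IsCompact S') (hconv : Convex ℝ S') (hsym : ∀ x ∈ S', -x ∈ S') (hne : S'.Nonempty)
    (hvol : volume S' = ENNReal.ofReal V)
    (hmem : ∀ z ∈ S', ∀ k < m, |l k 0 * z 1 - l k 1 * z 0| ≤ 1) : W * V ≤ (m : ℝ) ^ 2 := by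
  set s : ℝ := Real.sqrt (V / (4 * W)) with hs_def
  have hs0 : 0 < s := Real.sqrt_pos.2 (by positivity)
  have hs2 : s ^ 2 = V / (4 * W) := Real.sq_sqrt (by positivity)
  have hs3 : 4 * (s ^ 2 * W) = V := by
    rw [hs2]
    field_simp
  set a : ℕ → Fin 2 → ℝ := fun k => s • l k with ha
  have hwd : ∀ j k, |wd (a j) (a k)| = s ^ 2 * |wd (l j) (l k)| := by
    intro j k
    have : wd (a j) (a k) = s ^ 2 * wd (l j) (l k) := by
      simp only [wd, ha, Pi.smul_apply, smul_eq_mul]
      ring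
    rw [this, abs_mul, abs_of_nonneg (by positivity)]
  have hsum : 4 * ∑ k ∈ Finset.range m, ∑ j ∈ Finset.range k, |wd (a j) (a k)| = V := by
    simp_rw [hwd, ← Finset.mul_sum]
    rw [← hWe]
    exact hs3
  have h0c : IsCompact ({0} : Set (Fin 2 → ℝ)) := isCompact_singleton
  have h0s : ∀ x ∈ ({0} : Set (Fin 2 → ℝ)), -x ∈ ({0} : Set (Fin 2 → ℝ)) := by
    intro x hx
    rw [Set.mem_singleton_iff] at hx ⊢
    rw [hx, neg_zero]
  have hv0 := vol_Zn a {0} h0c (convex_singleton 0) h0s ⟨0, rfl⟩ m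
  rw [hsum] at hv0
  simp only [h135_hs_zero, Finset.sum_const_zero, mul_zero, ENNReal.ofReal_zero, add_zero] at hv0
  have hvs : volume ({0} : Set (Fin 2 → ℝ)) = 0 := measure_singleton 0
  rw [hvs, zero_add] at hv0
  have hv1 := vol_Zn a S' hcomp hconv hsym hne m
  rw [hsum, hvol] at hv1
  have hhs : ∀ k < m, hs S' ![-a k 1, a k 0] ≤ s := by
    intro k hk
    unfold hs
    refine csSup_le (hne.image _) ?_
    rintro _ ⟨z, hz, rfl⟩
    have h1 := hmem z hz k hk
    have h2 : l k 0 * z 1 - l k 1 * z 0 ≤ 1 := (le_abs_self _).trans h1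
    simp only [Matrix.cons_val_zero, Matrix.cons_val_one, ha, Pi.smul_apply, smul_eq_mul]
    nlinarith
  have hhs2 : 4 * ∑ k ∈ Finset.range m, hs S' ![-a k 1, a k 0] ≤ 4 * (s * m) := by
    have := Finset.sum_le_card_nsmul (Finset.range m) (fun k => hs S' ![-a k 1, a k 0]) s
      (fun k hk => hhs k (Finset.mem_range.1 hk))
    rw [Finset.card_range, nsmul_eq_mul] at this
    nlinarith
  have hle : volume (Zn a S' m) ≤ ENNReal.ofReal (2 * V + 4 * (s * m)) := by
    rw [hv1]
    have e : ENNReal.ofReal (2 * V + 4 * (s * m)) =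
        ENNReal.ofReal V + ENNReal.ofReal (4 * (s * m)) + ENNReal.ofReal V := by
      rw [← ENNReal.ofReal_add hV.le (by positivity),
        ← ENNReal.ofReal_add (by positivity) hV.le]
      congr 1
      ring
    rw [e]
    gcongr
  have hB := Zn_basic a {0} h0c (convex_singleton 0) h0s ⟨0, rfl⟩ m
  have hZ := Zn_basic a S' hcomp hconv hsym hne m
  have hmB : MeasurableSet (Zn a {0} m) := hB.1.isClosed.measurableSet
  have hmZ : MeasurableSet (Zn a S' m) := hZ.1.isClosed.measurableSet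
  have hbm := bm S' (Zn a {0} m) ((fun z : Fin 2 → ℝ => (2 : ℝ) • z) ⁻¹' (Zn a S' m))
    hcomp.isClosed.measurableSet hmB (hmZ.preimage (measurable_const_smul 2)) (by
      intro x hx y hy
      rw [Set.mem_preimage]
      have e : (2 : ℝ) • (fun i => (x i + y i) / 2) = x + y := by
        funext i
        simp only [Pi.smul_apply, smul_eq_mul, Pi.add_apply]
        ring
      rw [e]
      exact h135_add_mem a S' m x hx y hy)
  rw [Measure.addHaar_preimage_smul _ (by norm_num : (2 : ℝ) ≠ 0), hv0, hvol] at hbm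
  have hf : Module.finrank ℝ (Fin 2 → ℝ) = 2 := by simp
  rw [hf] at hbm
  have h4 : |((2 : ℝ) ^ 2)⁻¹| = 1 / 4 := by
    rw [abs_of_pos (by positivity)]
    norm_num
  rw [h4] at hbm
  have hfin : ENNReal.ofReal V * ENNReal.ofReal V ≤
      (ENNReal.ofReal (1 / 4) * ENNReal.ofReal (2 * V + 4 * (s * m))) ^ 2 := by
    refine hbm.trans ?_
    gcongr
  rw [← ENNReal.ofReal_mul hV.le, ← ENNReal.ofReal_mul (by norm_num), ← ENNReal.ofReal_pow
    (by positivity), ENNReal.ofReal_le_ofReal_iff (by positivity)] at hfin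
  have hfin2 : V ≤ 1 / 4 * (2 * V + 4 * (s * m)) := by
    have h5 : 0 ≤ 1 / 4 * (2 * V + 4 * (s * m)) := by positivity
    by_contra hcon
    push Not at hcon
    nlinarith
  have h6 : V ≤ 2 * (s * m) := by linarith
  have h7 : V ^ 2 ≤ 4 * (s ^ 2 * m ^ 2) := by
    have : V ^ 2 ≤ (2 * (s * m)) ^ 2 := pow_le_pow_left₀ hV.le h6 2
    calc V ^ 2 ≤ (2 * (s * m)) ^ 2 := this
      _ = _ := by ring
  have h8 : W * V * V ≤ m ^ 2 * V := by
    calc W * V * V = W * V ^ 2 := by ring
      _ ≤ W * (4 * (s ^ 2 * m ^ 2)) := mul_le_mul_of_nonneg_left h7 hW.le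
      _ = m ^ 2 * (4 * (s ^ 2 * W)) := by ring
      _ = m ^ 2 * V := by rw [hs3]
  exact le_of_mul_le_mul_right h8 hV

theorem planar (m : ℕ) (l : ℕ → Fin 2 → ℝ) :
    ENNReal.ofReal (∑ k ∈ Finset.range m, ∑ j ∈ Finset.range m, |wd (l k) (l j)|) *
      volume {z : Fin 2 → ℝ | ∀ k < m, |l k 0 * z 0 + l k 1 * z 1| ≤ 1} ≤ 2 * (m : ℝ≥0∞) ^ 2 := by
  change _ * volume (h135_S m l) ≤ _
  rw [h135_dbl]
  set W : ℝ := ∑ k ∈ Finset.range m, ∑ j ∈ Finset.range k, |wd (l j) (l k)| with hWe
  have hW0 : 0 ≤ W := Finset.sum_nonneg fun k _ => Finset.sum_nonneg fun j _ => abs_nonneg _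
  rcases hW0.eq_or_lt with hW | hW
  · rw [← hW]
    simp
  · have hex : ∃ j k, j < m ∧ k < m ∧ wd (l j) (l k) ≠ 0 := by
      by_contra hcon
      push Not at hcon
      apply hW.ne'
      rw [hWe]
      refine Finset.sum_eq_zero fun k hk => Finset.sum_eq_zero fun j hj => ?_
      have hk' := Finset.mem_range.1 hk
      have hj' := Finset.mem_range.1 hj
      rw [hcon j k (hj'.trans hk') hk', abs_zero]
    obtain ⟨j, k, hj, hk, hjk⟩ := hex
    have hSb := h135_S_bdd m l j k hj hk hjk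
    have hScl := h135_S_closed m l
    have hSc : IsCompact (h135_S m l) := Metric.isCompact_of_isClosed_isBounded hScl hSb
    have hSfin : volume (h135_S m l) ≠ ⊤ := hSc.measure_lt_top.ne
    obtain ⟨V, hVe⟩ : ∃ V : ℝ, V = (volume (h135_S m l)).toReal := ⟨_, rfl⟩
    have hVof : volume (h135_S m l) = ENNReal.ofReal V := by
      rw [hVe, ENNReal.ofReal_toReal hSfin]
    have hV0 : 0 ≤ V := by
      rw [hVe]
      exact ENNReal.toReal_nonneg
    rcases hV0.eq_or_lt with hV | hV
    · rw [hVof, ← hV]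
      simp
    · have hdet : LinearMap.det h135_rot ≠ 0 := by
        rw [h135_rot_det]
        norm_num
      have hvol : volume (h135_rot ⁻¹' (h135_S m l)) = ENNReal.ofReal V := by
        rw [Measure.addHaar_preimage_linearMap _ hdet, h135_rot_det, hVof]
        simp
      have hmemS : ∀ z ∈ h135_rot ⁻¹' (h135_S m l), ∀ k < m, |l k 0 * z 1 - l k 1 * z 0| ≤ 1 := by
        intro z hz k hk
        rw [Set.mem_preimage, h135_rot_apply] at hz
        have h1 := hz k hk
        simp only [Matrix.cons_val_zero, Matrix.cons_val_one] at h1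
        calc |l k 0 * z 1 - l k 1 * z 0| = |l k 0 * z 1 + l k 1 * -z 0| := by
              congr 1
              ring
          _ ≤ 1 := h1
      have hcont : Continuous h135_rot := LinearMap.continuous_of_finiteDimensional _
      let e : (Fin 2 → ℝ) ≃ₗ[ℝ] (Fin 2 → ℝ) := LinearMap.equivOfDetNeZero h135_rot hdet
      have hinv : h135_rot ⁻¹' (h135_S m l) = e.symm '' (h135_S m l) := by
        ext z
        constructor
        · intro hz
          exact ⟨h135_rot z, hz, e.symm_apply_apply z⟩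
        · rintro ⟨w, hw, rfl⟩
          have : h135_rot (e.symm w) = w := e.apply_symm_apply w
          rw [Set.mem_preimage, this]
          exact hw
      have hcomp : IsCompact (h135_rot ⁻¹' (h135_S m l)) := by
        rw [hinv]
        exact hSc.image (LinearMap.continuous_of_finiteDimensional e.symm.toLinearMap)
      have hSconv : Convex ℝ (h135_S m l) := by
        intro x hx y hy a b ha hb hab k hk
        have h1 := hx k hk
        have h2 := hy k hk
        have h3 : l k 0 * (a • x + b • y) 0 + l k 1 * (a • x + b • y) 1 =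
            a * (l k 0 * x 0 + l k 1 * x 1) + b * (l k 0 * y 0 + l k 1 * y 1) := by
          simp only [Pi.add_apply, Pi.smul_apply, smul_eq_mul]
          ring
        rw [h3]
        calc |a * (l k 0 * x 0 + l k 1 * x 1) + b * (l k 0 * y 0 + l k 1 * y 1)|
            ≤ |a * (l k 0 * x 0 + l k 1 * x 1)| + |b * (l k 0 * y 0 + l k 1 * y 1)| :=
              abs_add_le _ _
          _ = a * |l k 0 * x 0 + l k 1 * x 1| + b * |l k 0 * y 0 + l k 1 * y 1| := by
              rw [abs_mul, abs_mul, abs_of_nonneg ha, abs_of_nonneg hb]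
          _ ≤ a * 1 + b * 1 := by gcongr
          _ = 1 := by linarith
      have hSsym : ∀ x ∈ h135_S m l, -x ∈ h135_S m l := by
        intro x hx k hk
        have h1 := hx k hk
        have h3 : l k 0 * (-x) 0 + l k 1 * (-x) 1 = -(l k 0 * x 0 + l k 1 * x 1) := by
          simp only [Pi.neg_apply]
          ring
        rw [h3, abs_neg]
        exact h1
      have hSne : (0 : Fin 2 → ℝ) ∈ h135_S m l := by
        intro k hk
        simp
      have hmain := h135_main m l (h135_rot ⁻¹' (h135_S m l)) V W hV hW hWe hcomp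
        (hSconv.linear_preimage h135_rot)
        (by
          intro x hx
          rw [Set.mem_preimage, map_neg]
          exact hSsym _ hx)
        ⟨0, by
          rw [Set.mem_preimage, map_zero]
          exact hSne⟩ hvol hmemS
      rw [hVof, ← ENNReal.ofReal_mul (by positivity)]
      have hr : (2 : ℝ≥0∞) * (m : ℝ≥0∞) ^ 2 = ENNReal.ofReal (2 * (m : ℝ) ^ 2) := by
        rw [ENNReal.ofReal_mul (by norm_num), ENNReal.ofReal_pow (by positivity),
          ENNReal.ofReal_natCast]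
        norm_num
      rw [hr]
      apply ENNReal.ofReal_le_ofReal
      nlinarith

end Pool.Agent.Helper924_SB
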