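import Pool.Agent.Helper924_SB.Defs

/-! helper924, MP_8115c2_gt, job SB1: area of the Minkowski sum of a planar convex body and a segment.
PROOF IN WORDS. If `a = 0` then `segment ℝ (-a) a = {0}` and `hs A ![-0,0] = 0`. Otherwise apply a rotation and scaling or work directly:
let `w(z) = a 0 * z 1 - a 1 * z 0` (so `w(z) = ⟨![-a 1, a 0], z⟩`), `h = hs A ![-a 1, a 0] = sup_A w`; by symmetry and
compactness `w` maps `A` onto `[-h, h]`. In the coordinates `z = x • a + y • b`, `b = ![-a 1, a 0]/|a|^2` (so that `w z = y` and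
`a ∧ b = 1`, i.e. the change of variables `(x,y) ↦ x • a + y • b` has determinant `1`; `MeasureTheory.Measure.addHaar_image_linearMap`
or a measure preserving equivalence) the slice of `A` at height `y ∈ [-h,h]` is a non-empty compact interval `[p,q]`, and the
slice of `A + segment (-a) a` is `[p - 1, q + 1]`; for `|y| > h` both slices are empty. Fubini gives
`volume (A + segment) = volume A + 2 * (2 h)`. -/
open MeasureTheory Metric Set
open scoped ENNReal Pointwise

namespace Pool.Agent.Helper924_SB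

theorem sb1_seg (v : Fin 2 → ℝ) :
    v ∈ segment ℝ (-![(1 : ℝ), 0]) ![(1 : ℝ), 0] ↔ v 0 ∈ Icc (-1 : ℝ) 1 ∧ v 1 = 0 := by
  constructor
  · rintro ⟨α, β, hα, hβ, hab, rfl⟩
    simp only [Pi.add_apply, Pi.smul_apply, Pi.neg_apply, smul_eq_mul, Matrix.cons_val_zero,
      Matrix.cons_val_one, mul_zero, neg_zero, add_zero, mem_Icc, and_true]
    constructor <;> linarith
  · rintro ⟨⟨h1, h2⟩, h3⟩
    refine ⟨(1 - v 0) / 2, (1 + v 0) / 2, by linarith, by linarith, by ring, ?_⟩
    ext i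
    fin_cases i
    · simp only [Pi.add_apply, Pi.smul_apply, Pi.neg_apply, smul_eq_mul, Fin.zero_eta,
        Matrix.cons_val_zero]
      ring
    · simp [h3]

theorem sb1_vol (U : Set (Fin 2 → ℝ)) (hU : IsCompact U) :
    volume U = ∫⁻ y : ℝ, volume {x : ℝ | ![x, y] ∈ U} := by
  have h1 := (MeasureTheory.volume_preserving_finTwoArrow ℝ).symm.measure_preimage_equiv U
  rw [← h1]
  have hm : MeasurableSet ((MeasurableEquiv.finTwoArrow (α := ℝ)).symm ⁻¹' U) :=
    (MeasurableEquiv.finTwoArrow (α := ℝ)).symm.measurable hU.measurableSet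
  change (volume.prod volume : Measure (ℝ × ℝ)) _ = _
  rw [Measure.prod_apply_symm hm]
  rfl

theorem sb1_slice_closed (T : Set (Fin 2 → ℝ)) (hT : IsCompact T) (y : ℝ) :
    IsCompact {x : ℝ | ![x, y] ∈ T} := by
  have hc : IsClosed {x : ℝ | ![x, y] ∈ T} := by
    have h1 : Continuous fun x : ℝ => (![x, y] : Fin 2 → ℝ) := by fun_prop
    exact hT.isClosed.preimage h1
  refine Metric.isCompact_of_isClosed_isBounded hc ?_
  have h2 : {x : ℝ | ![x, y] ∈ T} ⊆ (fun v : Fin 2 → ℝ => v 0) '' T := by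
    intro x hx
    exact ⟨![x, y], hx, rfl⟩
  exact ((hT.image (continuous_apply 0)).isBounded).subset h2

theorem sb1_slice (T : Set (Fin 2 → ℝ)) (hT : IsCompact T) (hc : Convex ℝ T) (y : ℝ) :
    volume {x : ℝ | ![x, y] ∈ T + segment ℝ (-![(1 : ℝ), 0]) ![(1 : ℝ), 0]} =
      volume {x : ℝ | ![x, y] ∈ T} + ((fun v : Fin 2 → ℝ => v 1) '' T).indicator (fun _ => 2) y := by
  have hJ' : {x : ℝ | ![x, y] ∈ T + segment ℝ (-![(1 : ℝ), 0]) ![(1 : ℝ), 0]} =
      {x : ℝ | ![x, y] ∈ T} + Icc (-1 : ℝ) 1 := by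
    ext x
    constructor
    · intro hx
      obtain ⟨t, ht, s, hs, hts⟩ := Set.mem_add.1 hx
      rw [sb1_seg] at hs
      have e0 := congrFun hts 0
      have e1 := congrFun hts 1
      simp only [Pi.add_apply, Matrix.cons_val_zero, Matrix.cons_val_one] at e0 e1
      refine Set.mem_add.2 ⟨t 0, ?_, s 0, hs.1, e0⟩
      change (![t 0, y] : Fin 2 → ℝ) ∈ T
      have : (![t 0, y] : Fin 2 → ℝ) = t := by
        ext i
        fin_cases i
        · rfl
        · simp only [Fin.mk_one, Matrix.cons_val_one]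
          rw [← e1, hs.2, add_zero]
          simp
      rw [this]; exact ht
    · intro hx
      obtain ⟨t, ht, s, hs, hts⟩ := Set.mem_add.1 hx
      refine Set.mem_add.2 ⟨![t, y], ht, ![s, 0], ?_, ?_⟩
      · rw [sb1_seg]
        exact ⟨hs, rfl⟩
      · ext i
        fin_cases i
        · exact hts
        · simp
  rw [hJ']
  by_cases hne : ({x : ℝ | ![x, y] ∈ T}).Nonempty
  · have hy : y ∈ (fun v : Fin 2 → ℝ => v 1) '' T := by
      obtain ⟨x, hx⟩ := hne
      exact ⟨![x, y], hx, rfl⟩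
    rw [Set.indicator_of_mem hy]
    have hcpt := sb1_slice_closed T hT y
    have hconv : Convex ℝ {x : ℝ | ![x, y] ∈ T} := by
      intro x1 h1 x2 h2 α β hα hβ hab
      have h3 := hc h1 h2 hα hβ hab
      have h4 : α • (![x1, y] : Fin 2 → ℝ) + β • (![x2, y] : Fin 2 → ℝ) = ![α • x1 + β • x2, y] := by
        ext i
        fin_cases i
        · simp
        · simp only [Fin.mk_one, Pi.add_apply, Pi.smul_apply, Matrix.cons_val_one, smul_eq_mul]
          have : (α + β) * y = y := by rw [hab, one_mul]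
          simp only [Matrix.cons_val_fin_one]
          linarith
      rw [h4] at h3
      exact h3
    have hconn : IsConnected {x : ℝ | ![x, y] ∈ T} := ⟨hne, hconv.isPreconnected⟩
    have hI := eq_Icc_csInf_csSup_of_connected_bdd_closed hconn hcpt.bddBelow hcpt.bddAbove
      hcpt.isClosed
    have hle : sInf {x : ℝ | ![x, y] ∈ T} ≤ sSup {x : ℝ | ![x, y] ∈ T} :=
      csInf_le_csSup hne hcpt.bddBelow hcpt.bddAbove
    obtain ⟨p, hp⟩ : ∃ p, p = sInf {x : ℝ | ![x, y] ∈ T} := ⟨_, rfl⟩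
    obtain ⟨q, hq⟩ : ∃ q, q = sSup {x : ℝ | ![x, y] ∈ T} := ⟨_, rfl⟩
    rw [← hp, ← hq] at hI hle
    rw [hI, Set.Icc_add_Icc hle (by norm_num), Real.volume_Icc, Real.volume_Icc]
    have e : q + 1 - (p + -1) = (q - p) + 2 := by ring
    rw [e, ENNReal.ofReal_add (by linarith) (by norm_num)]
    norm_num
  · have hy : y ∉ (fun v : Fin 2 → ℝ => v 1) '' T := by
      rintro ⟨v, hv, hvy⟩
      apply hne
      refine ⟨v 0, ?_⟩
      change (![v 0, y] : Fin 2 → ℝ) ∈ T
      have : (![v 0, y] : Fin 2 → ℝ) = v := by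
        ext i
        fin_cases i
        · rfl
        · exact hvy.symm
      rw [this]; exact hv
    rw [Set.indicator_of_notMem hy, Set.not_nonempty_iff_eq_empty.1 hne, Set.empty_add,
      measure_empty, add_zero]

theorem sb1_std (T : Set (Fin 2 → ℝ)) (hT : IsCompact T) (hc : Convex ℝ T)
    (hsym : ∀ x ∈ T, -x ∈ T) (hne : T.Nonempty) :
    volume (T + segment ℝ (-![(1 : ℝ), 0]) ![(1 : ℝ), 0]) =
      volume T + 4 * ENNReal.ofReal (sSup ((fun v : Fin 2 → ℝ => v 1) '' T)) := by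
  have hseg : IsCompact (segment ℝ (-![(1 : ℝ), 0]) ![(1 : ℝ), 0]) := by
    have h := (Set.toFinite {(-![(1 : ℝ), 0] : Fin 2 → ℝ), ![(1 : ℝ), 0]}).isCompact_convexHull (𝕜 := ℝ)
    rwa [convexHull_pair] at h
  rw [sb1_vol _ (hT.add hseg), sb1_vol T hT]
  simp only [sb1_slice T hT hc]
  have hPc : IsCompact ((fun v : Fin 2 → ℝ => v 1) '' T) := hT.image (continuous_apply 1)
  have hPconv : Convex ℝ ((fun v : Fin 2 → ℝ => v 1) '' T) :=
    hc.linear_image (LinearMap.proj (R := ℝ) (φ := fun _ : Fin 2 => ℝ) 1)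
  have hPne : ((fun v : Fin 2 → ℝ => v 1) '' T).Nonempty := hne.image _
  have hPsym : ∀ x ∈ ((fun v : Fin 2 → ℝ => v 1) '' T), -x ∈ ((fun v : Fin 2 → ℝ => v 1) '' T) := by
    rintro _ ⟨v, hv, rfl⟩
    exact ⟨-v, hsym v hv, rfl⟩
  obtain ⟨P, hP⟩ : ∃ P : Set ℝ, P = (fun v : Fin 2 → ℝ => v 1) '' T := ⟨_, rfl⟩
  rw [← hP] at hPc hPconv hPne hPsym ⊢
  have hI := eq_Icc_csInf_csSup_of_connected_bdd_closed ⟨hPne, hPconv.isPreconnected⟩
    hPc.bddBelow hPc.bddAbove hPc.isClosed
  have hinf : sInf P = -sSup P := by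
    apply le_antisymm
    · exact csInf_le hPc.bddBelow (hPsym _ (hPc.isClosed.csSup_mem hPne hPc.bddAbove))
    · refine le_csInf hPne fun y hy => ?_
      have := le_csSup hPc.bddAbove (hPsym y hy)
      linarith
  have h0 : 0 ≤ sSup P := by
    obtain ⟨y, hy⟩ := hPne
    have h1 := le_csSup hPc.bddAbove hy
    have h2 := le_csSup hPc.bddAbove (hPsym y hy)
    linarith
  rw [lintegral_add_right _ (measurable_const.indicator hPc.measurableSet),
    lintegral_indicator hPc.measurableSet, setLIntegral_const]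
  congr 1
  have hvol : volume P = ENNReal.ofReal (sSup P - -sSup P) := by
    rw [← hinf, ← Real.volume_Icc, ← hI]
  rw [hvol]
  have e : sSup P - -sSup P = 2 * sSup P := by ring
  rw [e, ENNReal.ofReal_mul (by norm_num), ← mul_assoc]
  norm_num

theorem vol_add_segment (A : Set (Fin 2 → ℝ)) (hA : IsCompact A) (hc : Convex ℝ A) (hsym : ∀ x ∈ A, -x ∈ A)
    (hne : A.Nonempty) (a : Fin 2 → ℝ) :
    volume (A + segment ℝ (-a) a) = volume A + 4 * ENNReal.ofReal (hs A ![-a 1, a 0]) := by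
  by_cases ha : a = 0
  · subst ha
    have h1 : hs A ![-(0 : Fin 2 → ℝ) 1, (0 : Fin 2 → ℝ) 0] = 0 := by
      unfold hs
      have h2 : (fun z : Fin 2 → ℝ => (![-(0 : Fin 2 → ℝ) 1, (0 : Fin 2 → ℝ) 0] : Fin 2 → ℝ) 0 * z 0 +
          (![-(0 : Fin 2 → ℝ) 1, (0 : Fin 2 → ℝ) 0] : Fin 2 → ℝ) 1 * z 1) '' A = {0} := by
        ext y
        constructor
        · rintro ⟨z, _, rfl⟩
          simp
        · intro hy
          obtain ⟨z, hz⟩ := hne
          refine ⟨z, hz, ?_⟩
          rw [Set.mem_singleton_iff.1 hy]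
          simp
      rw [h2, csSup_singleton]
    rw [h1, neg_zero, segment_same, Set.add_singleton]
    simp
  · obtain ⟨N, hN⟩ : ∃ N : ℝ, N = a 0 ^ 2 + a 1 ^ 2 := ⟨_, rfl⟩
    have hNpos : 0 < N := by
      rw [hN]
      by_contra hcon
      apply ha
      have h0 : a 0 = 0 := by nlinarith [sq_nonneg (a 0), sq_nonneg (a 1)]
      have h1 : a 1 = 0 := by nlinarith [sq_nonneg (a 0), sq_nonneg (a 1)]
      ext i
      fin_cases i
      · exact h0
      · exact h1
    have hN0 : N ≠ 0 := hNpos.ne'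
    obtain ⟨L, hL⟩ : ∃ L : (Fin 2 → ℝ) →ₗ[ℝ] (Fin 2 → ℝ),
        L = Matrix.toLin' !![a 0, -a 1 / N; a 1, a 0 / N] := ⟨_, rfl⟩
    have hdet : LinearMap.det L = 1 := by
      rw [hL, LinearMap.det_toLin', Matrix.det_fin_two_of]
      field_simp
      rw [hN]; ring
    have hLapp : ∀ v, L v = ![a 0 * v 0 + -a 1 / N * v 1, a 1 * v 0 + a 0 / N * v 1] := by
      intro v
      rw [hL, Matrix.toLin'_apply]
      ext i
      fin_cases i <;> simp [Matrix.mulVec, dotProduct, Fin.sum_univ_two]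
    obtain ⟨R, hR⟩ : ∃ R : (Fin 2 → ℝ) →ₗ[ℝ] (Fin 2 → ℝ),
        R = Matrix.toLin' !![a 0 / N, a 1 / N; -a 1, a 0] := ⟨_, rfl⟩
    have hRapp : ∀ v, R v = ![a 0 / N * v 0 + a 1 / N * v 1, -a 1 * v 0 + a 0 * v 1] := by
      intro v
      rw [hR, Matrix.toLin'_apply]
      ext i
      fin_cases i <;> simp [Matrix.mulVec, dotProduct, Fin.sum_univ_two]
    have hLR : ∀ v, L (R v) = v := by
      intro v
      rw [hLapp, hRapp]
      ext i
      fin_cases i
      · simp only [Fin.zero_eta, Matrix.cons_val_zero, Matrix.cons_val_one, Matrix.cons_val_fin_one]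
        field_simp
        rw [hN]; ring
      · simp only [Fin.mk_one, Matrix.cons_val_zero, Matrix.cons_val_one, Matrix.cons_val_fin_one]
        field_simp
        rw [hN]; ring
    have hRc : Continuous R := R.continuous_of_finiteDimensional
    have hAT : A = L '' (R '' A) := by
      rw [Set.image_image]
      simp [hLR]
    have hT := sb1_std (R '' A) (hA.image hRc) (hc.linear_image R)
      (by
        rintro _ ⟨x, hx, rfl⟩
        exact ⟨-x, hsym x hx, map_neg R x⟩) (hne.image R)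
    have hseg : segment ℝ (-a) a = L '' segment ℝ (-![(1 : ℝ), 0]) ![(1 : ℝ), 0] := by
      have h2 := image_segment ℝ L.toAffineMap (-![(1 : ℝ), 0]) ![(1 : ℝ), 0]
      rw [LinearMap.coe_toAffineMap] at h2
      rw [h2]
      have h1 : L ![(1 : ℝ), 0] = a := by
        rw [hLapp]
        ext i
        fin_cases i <;> simp
      rw [map_neg, h1]
    have hvA : volume A = volume (R '' A) := by
      conv_lhs => rw [hAT]
      rw [Measure.addHaar_image_linearMap, hdet]
      simp
    have hsum : volume (A + segment ℝ (-a) a) =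
        volume (R '' A + segment ℝ (-![(1 : ℝ), 0]) ![(1 : ℝ), 0]) := by
      conv_lhs => rw [hAT, hseg, ← Set.image_add]
      rw [Measure.addHaar_image_linearMap, hdet]
      simp
    rw [hsum, hT, hvA]
    congr 3
    unfold hs
    rw [Set.image_image]
    congr 1
    refine Set.image_congr fun z _ => ?_
    rw [hRapp]
    simp

end Pool.Agent.Helper924_SB
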