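import Pool.Agent.Helper924_SB.Seg

/-! helper924, MP_8115c2_gt, job SB2: expansion of the area of a body plus a zonotope.
PROOF IN WORDS. `hs (A + B) u = hs A u + hs B u` for compact non-empty sets, and `hs (segment ℝ (-a) a) u = |a 0 * u 0 + a 1 * u 1|`; so by
induction `Zn a S m` is compact, convex, symmetric, non-empty, and `hs (Zn a S m) u = hs S u + ∑ j < m, |a j 0 * u 0 + a j 1 * u 1|`.
Then `vol_add_segment` (given) with `A = Zn a S m` and induction; note that `0 ≤ hs S u` for symmetric `S`, and for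
`u = ![-a m 1, a m 0]` one has `a j 0 * u 0 + a j 1 * u 1 = wd (a j) (a m)` up to sign. -/
open MeasureTheory Metric Set
open scoped ENNReal Pointwise

namespace Pool.Agent.Helper924_SB

theorem sb2_cont (u : Fin 2 → ℝ) : Continuous (fun z : Fin 2 → ℝ => u 0 * z 0 + u 1 * z 1) := by
  fun_prop

theorem sb2_bdd (A : Set (Fin 2 → ℝ)) (hA : IsCompact A) (u : Fin 2 → ℝ) :
    BddAbove ((fun z : Fin 2 → ℝ => u 0 * z 0 + u 1 * z 1) '' A) :=
  (hA.image (sb2_cont u)).bddAbove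

theorem sb2_add (A B : Set (Fin 2 → ℝ)) (hA : IsCompact A) (hB : IsCompact B) (hA0 : A.Nonempty)
    (hB0 : B.Nonempty) (u : Fin 2 → ℝ) : hs (A + B) u = hs A u + hs B u := by
  unfold hs
  rw [← csSup_add (hA0.image _) (sb2_bdd A hA u) (hB0.image _) (sb2_bdd B hB u)]
  congr 1
  ext t
  simp only [Set.mem_image, Set.mem_add]
  constructor
  · rintro ⟨z, ⟨x, hx, y, hy, rfl⟩, rfl⟩
    refine ⟨_, ⟨x, hx, rfl⟩, _, ⟨y, hy, rfl⟩, ?_⟩
    simp only [Pi.add_apply]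
    ring
  · rintro ⟨_, ⟨x, hx, rfl⟩, _, ⟨y, hy, rfl⟩, rfl⟩
    refine ⟨_, ⟨x, hx, y, hy, rfl⟩, ?_⟩
    simp only [Pi.add_apply]
    ring

theorem sb2_seg_compact (a : Fin 2 → ℝ) : IsCompact (segment ℝ (-a) a) := by
  rw [segment_eq_image ℝ (-a) a]
  exact isCompact_Icc.image (by fun_prop)

theorem sb2_seg_ne (a : Fin 2 → ℝ) : (segment ℝ (-a) a).Nonempty := ⟨a, right_mem_segment ℝ _ _⟩

theorem sb2_seg (a u : Fin 2 → ℝ) :
    hs (segment ℝ (-a) a) u = |a 0 * u 0 + a 1 * u 1| := by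
  apply le_antisymm
  · unfold hs
    apply csSup_le ((sb2_seg_ne a).image _)
    rintro _ ⟨z, ⟨s, t, hs0, ht0, hst, rfl⟩, rfl⟩
    simp only [Pi.add_apply, Pi.smul_apply, Pi.neg_apply, smul_eq_mul]
    have e : u 0 * (s * -a 0 + t * a 0) + u 1 * (s * -a 1 + t * a 1)
        = (t - s) * (a 0 * u 0 + a 1 * u 1) := by ring
    rw [e]
    have h1 : |t - s| ≤ 1 := by
      rw [abs_le]
      constructor <;> linarith
    calc (t - s) * (a 0 * u 0 + a 1 * u 1) ≤ |(t - s) * (a 0 * u 0 + a 1 * u 1)| := le_abs_self _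
      _ = |t - s| * |a 0 * u 0 + a 1 * u 1| := abs_mul _ _
      _ ≤ 1 * |a 0 * u 0 + a 1 * u 1| := mul_le_mul_of_nonneg_right h1 (abs_nonneg _)
      _ = _ := one_mul _
  · unfold hs
    have hb := sb2_bdd _ (sb2_seg_compact a) u
    rcases abs_cases (a 0 * u 0 + a 1 * u 1) with ⟨h, _⟩ | ⟨h, _⟩
    · rw [h]
      refine le_csSup hb ⟨a, right_mem_segment ℝ _ _, ?_⟩
      simp only
      ring
    · rw [h]
      refine le_csSup hb ⟨-a, left_mem_segment ℝ _ _, ?_⟩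
      simp only [Pi.neg_apply]
      ring

theorem sb2_seg_symm (a : Fin 2 → ℝ) : ∀ x ∈ segment ℝ (-a) a, -x ∈ segment ℝ (-a) a := by
  rintro _ ⟨s, t, hs0, ht0, hst, rfl⟩
  refine ⟨t, s, ht0, hs0, by linarith, ?_⟩
  rw [smul_neg, smul_neg]
  abel

theorem sb2_nonneg (S : Set (Fin 2 → ℝ)) (hS : IsCompact S) (hsym : ∀ x ∈ S, -x ∈ S)
    (hne : S.Nonempty) (u : Fin 2 → ℝ) : 0 ≤ hs S u := by
  obtain ⟨x, hx⟩ := hne
  unfold hs
  have hb := sb2_bdd S hS u
  rcases le_total 0 (u 0 * x 0 + u 1 * x 1) with h | h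
  · exact h.trans (le_csSup hb ⟨x, hx, rfl⟩)
  · refine le_trans ?_ (le_csSup hb ⟨-x, hsym x hx, rfl⟩)
    simp only [Pi.neg_apply]
    linarith

theorem Zn_basic (a : ℕ → Fin 2 → ℝ) (S : Set (Fin 2 → ℝ)) (hS : IsCompact S) (hc : Convex ℝ S) (hsym : ∀ x ∈ S, -x ∈ S)
    (hne : S.Nonempty) (m : ℕ) :
    IsCompact (Zn a S m) ∧ Convex ℝ (Zn a S m) ∧ (∀ x ∈ Zn a S m, -x ∈ Zn a S m) ∧ (Zn a S m).Nonempty ∧
      ∀ u, hs (Zn a S m) u = hs S u + ∑ j ∈ Finset.range m, |a j 0 * u 0 + a j 1 * u 1| := by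
  induction m with
  | zero =>
    refine ⟨hS, hc, hsym, hne, fun u => ?_⟩
    simp [Zn]
  | succ m ih =>
    obtain ⟨h1, h2, h3, h4, h5⟩ := ih
    refine ⟨?_, ?_, ?_, ?_, fun u => ?_⟩
    · exact h1.add (sb2_seg_compact _)
    · exact h2.add (convex_segment _ _)
    · rintro _ ⟨x, hx, y, hy, rfl⟩
      exact ⟨-x, h3 x hx, -y, sb2_seg_symm _ y hy, by simp only [neg_add]⟩
    · exact h4.add (sb2_seg_ne _)
    · show hs (Zn a S m + segment ℝ (-(a m)) (a m)) u = _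
      rw [sb2_add _ _ h1 (sb2_seg_compact _) h4 (sb2_seg_ne _), h5, sb2_seg, Finset.sum_range_succ]
      ring

theorem vol_Zn (a : ℕ → Fin 2 → ℝ) (S : Set (Fin 2 → ℝ)) (hS : IsCompact S) (hc : Convex ℝ S) (hsym : ∀ x ∈ S, -x ∈ S)
    (hne : S.Nonempty) (m : ℕ) :
    volume (Zn a S m) = volume S + ENNReal.ofReal (4 * ∑ k ∈ Finset.range m, hs S ![-a k 1, a k 0]) +
      ENNReal.ofReal (4 * ∑ k ∈ Finset.range m, ∑ j ∈ Finset.range k, |wd (a j) (a k)|) := by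
  induction m with
  | zero => simp [Zn]
  | succ m ih =>
    obtain ⟨h1, h2, h3, h4, h5⟩ := Zn_basic a S hS hc hsym hne m
    show volume (Zn a S m + segment ℝ (-(a m)) (a m)) = _
    rw [vol_add_segment _ h1 h2 h3 h4, ih, h5, Finset.sum_range_succ, Finset.sum_range_succ]
    have e1 : ∑ j ∈ Finset.range m, |a j 0 * (![-a m 1, a m 0] : Fin 2 → ℝ) 0
        + a j 1 * (![-a m 1, a m 0] : Fin 2 → ℝ) 1| = ∑ j ∈ Finset.range m, |wd (a j) (a m)| := by
      refine Finset.sum_congr rfl fun j _ => ?_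
      rw [← abs_neg (wd (a j) (a m))]
      congr 1
      simp [wd]
      ring
    rw [e1]
    have n1 : 0 ≤ ∑ k ∈ Finset.range m, hs S ![-a k 1, a k 0] :=
      Finset.sum_nonneg fun k _ => sb2_nonneg S hS hsym hne _
    have n2 : 0 ≤ ∑ k ∈ Finset.range m, ∑ j ∈ Finset.range k, |wd (a j) (a k)| :=
      Finset.sum_nonneg fun k _ => Finset.sum_nonneg fun j _ => abs_nonneg _
    have n3 : 0 ≤ hs S ![-a m 1, a m 0] := sb2_nonneg S hS hsym hne _
    have n4 : 0 ≤ ∑ j ∈ Finset.range m, |wd (a j) (a m)| :=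
      Finset.sum_nonneg fun j _ => abs_nonneg _
    have e2 : (4 : ℝ≥0∞) * ENNReal.ofReal (hs S ![-a m 1, a m 0] + ∑ j ∈ Finset.range m, |wd (a j) (a m)|)
        = ENNReal.ofReal (4 * hs S ![-a m 1, a m 0])
          + ENNReal.ofReal (4 * ∑ j ∈ Finset.range m, |wd (a j) (a m)|) := by
      rw [← ENNReal.ofReal_add (by positivity) (by positivity), ← mul_add,
        ENNReal.ofReal_mul (by norm_num)]
      congr 1
      simp
    rw [e2, mul_add, mul_add, ENNReal.ofReal_add (by positivity) (by positivity),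
      ENNReal.ofReal_add (by positivity) (by positivity)]
    abel

end Pool.Agent.Helper924_SB
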